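import Pool.Agent.Helper30.LK.St

/-!
# Project LK, module CN2: the primes `p` such that `p ^ 2 + p + 1` has no small prime factor
-/

set_option autoImplicit false

noncomputable section

namespace Pool.Agent.Helper85.LK

open Finset ArithmeticFunction Filter
open Pool.Agent.Helper30.LK
open Pool.Agent.Helper15.AB (StMT)

open Classical in
/-- the residue classes modulo `l` which are removed -/
private def SS (l : ℕ) : Finset ℕ :=
  (range l).filter (fun s => s = 0 ∨ (l % 3 = 1 ∧ l ∣ s ^ 2 + s + 1))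

private theorem dvd_iff (l s : ℕ) : l ∣ s ^ 2 + s + 1 ↔ ((s : ZMod l) ^ 2 + s + 1 = 0) := by
  rw [← ZMod.natCast_eq_zero_iff]
  push_cast
  exact Iff.rfl

private theorem SS_card_le (l : ℕ) (hl : l.Prime) : (SS l).card ≤ 3 := by
  classical
  have : Fact l.Prime := ⟨hl⟩
  have hinj : Set.InjOn (fun s : ℕ => (s : ZMod l)) (range l) := by
    intro a ha b hb hab
    have h1 := (ZMod.natCast_eq_natCast_iff' a b l).1 hab
    rw [Nat.mod_eq_of_lt (mem_range.1 ha), Nat.mod_eq_of_lt (mem_range.1 hb)] at h1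
    exact h1
  set R := (range l).filter (fun s => l ∣ s ^ 2 + s + 1) with hR
  have h1 : SS l ⊆ insert 0 R := by
    intro s hs
    rw [SS, mem_filter] at hs
    rw [mem_insert]
    rcases hs.2 with h | h
    · exact Or.inl h
    · exact Or.inr (mem_filter.2 ⟨hs.1, h.2⟩)
  have h2 : R.card ≤ 2 := by
    rcases R.eq_empty_or_nonempty with h | ⟨r, hr⟩
    · simp [h]
    · have h3 : R.image (fun s : ℕ => (s : ZMod l)) ⊆
          ({(r : ZMod l), -1 - (r : ZMod l)} : Finset (ZMod l)) := by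
        intro t ht
        obtain ⟨s, hs, rfl⟩ := mem_image.1 ht
        have e1 := (dvd_iff l s).1 (mem_filter.1 hs).2
        have e2 := (dvd_iff l r).1 (mem_filter.1 hr).2
        have e3 : ((s : ZMod l) - r) * (s + r + 1) = 0 := by linear_combination e1 - e2
        rw [mem_insert, mem_singleton]
        rcases mul_eq_zero.1 e3 with h | h
        · left
          linear_combination h
        · right
          linear_combination h
      rw [← card_image_of_injOn (hinj.mono (by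
        intro s hs
        exact (mem_filter.1 hs).1))]
      exact (card_le_card h3).trans card_le_two
  calc (SS l).card ≤ (insert 0 R).card := card_le_card h1
    _ ≤ R.card + 1 := card_insert_le _ _
    _ ≤ 3 := by omega

private theorem SS_one (l : ℕ) (hl : l.Prime) : 1 ≤ (SS l).card := by
  classical
  rw [Nat.one_le_iff_ne_zero, card_ne_zero]
  exact ⟨0, mem_filter.2 ⟨mem_range.2 hl.pos, Or.inl rfl⟩⟩

private theorem SS_three (l : ℕ) (hl : l.Prime) (h3 : l % 3 = 1) : 3 ≤ (SS l).card := by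
  classical
  have : Fact l.Prime := ⟨hl⟩
  have : Fact (Nat.Prime 3) := ⟨Nat.prime_three⟩
  have hd : 3 ∣ Fintype.card (ZMod l)ˣ := by
    rw [ZMod.card_units]
    have := hl.one_lt
    omega
  obtain ⟨v, hv⟩ := exists_prime_orderOf_dvd_card 3 hd
  have hv3 : (v : ZMod l) ^ 3 = 1 := by
    have h1 : v ^ 3 = 1 := by rw [← hv]; exact pow_orderOf_eq_one v
    have h2 := congrArg (fun w : (ZMod l)ˣ => (w : ZMod l)) h1
    simpa using h2
  have hv1 : (v : ZMod l) ≠ 1 := by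
    intro h
    have h1 : v = 1 := Units.ext h
    rw [h1, orderOf_one] at hv
    omega
  set u : ZMod l := (v : ZMod l) with hu
  have hq : u ^ 2 + u + 1 = 0 := by
    have h1 : (u - 1) * (u ^ 2 + u + 1) = 0 := by linear_combination hv3
    rcases mul_eq_zero.1 h1 with h | h
    · exact absurd (sub_eq_zero.1 h) hv1
    · exact h
  have hu0 : u ≠ 0 := v.ne_zero
  have hq2 : (u ^ 2) ^ 2 + u ^ 2 + 1 = 0 := by linear_combination (u ^ 2 - u + 1) * hq
  have hne : u ≠ u ^ 2 := by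
    intro h
    have h1 : u * (u - 1) = 0 := by linear_combination -h
    rcases mul_eq_zero.1 h1 with h | h
    · exact hu0 h
    · exact hv1 (sub_eq_zero.1 h)
  have mem : ∀ w : ZMod l, w ^ 2 + w + 1 = 0 → w.val ∈ SS l := by
    intro w hw
    refine mem_filter.2 ⟨mem_range.2 (ZMod.val_lt w), Or.inr ⟨h3, ?_⟩⟩
    rw [dvd_iff, ZMod.natCast_zmod_val]
    exact hw
  have hsub : ({0, u.val, (u ^ 2).val} : Finset ℕ) ⊆ SS l := by
    intro s hs
    rw [mem_insert, mem_insert, mem_singleton] at hs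
    rcases hs with rfl | rfl | rfl
    · exact mem_filter.2 ⟨mem_range.2 hl.pos, Or.inl rfl⟩
    · exact mem u hq
    · exact mem (u ^ 2) hq2
  have hcard : ({0, u.val, (u ^ 2).val} : Finset ℕ).card = 3 := by
    rw [card_eq_three]
    refine ⟨0, u.val, (u ^ 2).val, ?_, ?_, ?_, rfl⟩
    · intro h
      exact hu0 ((ZMod.val_eq_zero u).1 h.symm)
    · intro h
      exact pow_ne_zero 2 hu0 ((ZMod.val_eq_zero (u ^ 2)).1 h.symm)
    · intro h
      exact hne (ZMod.val_injective l h)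
  rw [← hcard]
  exact card_le_card hsub

/-- the lower bound for the sum -/
private theorem sum_ge (N : ℕ) :
    ∑ l ∈ (Icc 1 N).filter Nat.Prime, (1 : ℝ) / l +
      2 * ∑ l ∈ (Icc 1 N).filter (fun l => l.Prime ∧ l % 3 = 1), (1 : ℝ) / l - 2 ≤
    ∑ l ∈ (Icc 7 N).filter Nat.Prime, ((SS l).card : ℝ) / l := by
  classical
  have a1 : ∑ l ∈ (Icc 1 N).filter Nat.Prime, (1 : ℝ) / l ≤
      ∑ l ∈ (Icc 7 N).filter Nat.Prime, (1 : ℝ) / l + 2 := by
    have hsub : (Icc 1 N).filter Nat.Prime ⊆ (Icc 7 N).filter Nat.Prime ∪ {2, 3, 5} := by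
      intro l hl
      obtain ⟨h1, h2⟩ := mem_filter.1 hl
      rw [mem_Icc] at h1
      rw [mem_union, mem_filter, mem_Icc]
      rcases Nat.lt_or_ge l 7 with h7 | h7
      · right
        obtain ⟨h1, -⟩ := h1
        interval_cases l <;> first | (simp; done) | exact absurd h2 (by norm_num)
      · exact Or.inl ⟨⟨h7, h1.2⟩, h2⟩
    calc ∑ l ∈ (Icc 1 N).filter Nat.Prime, (1 : ℝ) / l
        ≤ ∑ l ∈ (Icc 7 N).filter Nat.Prime ∪ {2, 3, 5}, (1 : ℝ) / l :=
          sum_le_sum_of_subset_of_nonneg hsub (fun l _ _ => by positivity)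
      _ ≤ ∑ l ∈ (Icc 7 N).filter Nat.Prime, (1 : ℝ) / l + ∑ l ∈ ({2, 3, 5} : Finset ℕ), (1 : ℝ) / l := by
          rw [← sum_union_inter]
          have : 0 ≤ ∑ l ∈ (Icc 7 N).filter Nat.Prime ∩ {2, 3, 5}, (1 : ℝ) / l :=
            sum_nonneg (fun l _ => by positivity)
          linarith
      _ ≤ _ := by
          have : ∑ l ∈ ({2, 3, 5} : Finset ℕ), (1 : ℝ) / l ≤ 2 := by
            rw [sum_insert (by decide), sum_insert (by decide), sum_singleton]
            norm_num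
          linarith
  have a2 : ∑ l ∈ (Icc 1 N).filter (fun l => l.Prime ∧ l % 3 = 1), (1 : ℝ) / l =
      ∑ l ∈ (Icc 7 N).filter Nat.Prime, if l % 3 = 1 then (1 : ℝ) / l else 0 := by
    rw [← sum_filter, filter_filter]
    refine sum_congr ?_ (fun _ _ => rfl)
    ext l
    rw [mem_filter, mem_filter, mem_Icc, mem_Icc]
    constructor
    · rintro ⟨⟨h1, h2⟩, h3, h4⟩
      refine ⟨⟨?_, h2⟩, h3, h4⟩
      by_contra hlt
      push Not at hlt
      interval_cases l <;> first | omega | exact absurd h3 (by norm_num)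
    · rintro ⟨⟨h1, h2⟩, h3, h4⟩
      exact ⟨⟨by omega, h2⟩, h3, h4⟩
  have a3 : ∑ l ∈ (Icc 7 N).filter Nat.Prime, (1 : ℝ) / l +
      2 * ∑ l ∈ (Icc 7 N).filter Nat.Prime, (if l % 3 = 1 then (1 : ℝ) / l else 0) ≤
      ∑ l ∈ (Icc 7 N).filter Nat.Prime, ((SS l).card : ℝ) / l := by
    rw [mul_sum, ← sum_add_distrib]
    refine sum_le_sum (fun l hl => ?_)
    have hp := (mem_filter.1 hl).2
    have hl0 : (0 : ℝ) < l := by exact_mod_cast hp.pos
    split_ifs with h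
    · have h1 : (3 : ℝ) ≤ (SS l).card := by exact_mod_cast SS_three l hp h
      have h2 : (3 : ℝ) / l ≤ ((SS l).card : ℝ) / l := div_le_div_of_nonneg_right h1 hl0.le
      refine le_trans (le_of_eq ?_) h2
      ring
    · have h1 : (1 : ℝ) ≤ (SS l).card := by exact_mod_cast SS_one l hp
      have h2 : (1 : ℝ) / l ≤ ((SS l).card : ℝ) / l := div_le_div_of_nonneg_right h1 hl0.le
      linarith
  rw [a2]
  linarith

theorem hCN2 (hS : StSVU) (hM : StMT) (h3 : StMR3) : StCN2 := by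
  classical
  obtain ⟨C, δ, hC, hδ, hδ4, hS⟩ := hS
  obtain ⟨C1, hC1, hM⟩ := hM
  obtain ⟨C3, hC3, h3⟩ := h3
  set K : ℝ := Real.exp (C1 + 2 * C3 + 2) * (δ / 4) ^ (-2 : ℤ) with hK
  have hKpos : 0 < K := by
    rw [hK]
    have : 0 < (δ / 4) ^ (-2 : ℤ) := zpow_pos (by linarith) _
    positivity
  refine ⟨C * K + 1, by positivity, ?_⟩
  have ev1 : ∀ᶠ x : ℝ in atTop, Real.log x ^ (2 : ℝ) ≤ x ^ (3 / 16 : ℝ) := by
    have h := (isLittleO_log_rpow_rpow_atTop (s := (3 / 16 : ℝ)) 2 (by norm_num)).bound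
      (show (0 : ℝ) < 1 by norm_num)
    filter_upwards [h, eventually_ge_atTop 1] with x hx hx1
    have h0 : 0 ≤ Real.log x := Real.log_nonneg hx1
    rw [one_mul, Real.norm_of_nonneg (Real.rpow_nonneg h0 _),
      Real.norm_of_nonneg (Real.rpow_nonneg (by linarith) _)] at hx
    exact hx
  have ev2 : ∀ᶠ x : ℝ in atTop, 3 ≤ x ^ (δ / 4) :=
    (tendsto_rpow_atTop (by linarith)).eventually_ge_atTop 3
  have ev := (ev1.and ev2).and (eventually_ge_atTop (16 : ℝ))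
  obtain ⟨x₀, hx₀⟩ := eventually_atTop.1 (tendsto_natCast_atTop_atTop.eventually ev)
  refine ⟨x₀, fun x y hx hxy hyx => ?_⟩
  obtain ⟨⟨hlog, hz3⟩, h16⟩ := hx₀ x hx
  rw [Real.rpow_two] at hlog
  have hx0 : (0 : ℝ) < x := by linarith
  have hy2 : (2 : ℝ) ≤ y := by
    refine le_trans ?_ hxy
    have h1 : (16 : ℝ) ^ (1 / 4 : ℝ) ≤ (x : ℝ) ^ (1 / 4 : ℝ) :=
      Real.rpow_le_rpow (by norm_num) h16 (by norm_num)
    have h2 : (16 : ℝ) ^ (1 / 4 : ℝ) = 2 := by
      rw [show (16 : ℝ) = 2 ^ (4 : ℝ) by norm_num, ← Real.rpow_mul (by norm_num)]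
      norm_num
    linarith
  have hy0 : (0 : ℝ) < y := by linarith
  have hlx : 0 < Real.log x := Real.log_pos (by linarith)
  -- `z = y ^ δ`
  have hz : (3 : ℝ) ≤ (y : ℝ) ^ δ := by
    refine hz3.trans ?_
    have h1 : ((x : ℝ) ^ (1 / 4 : ℝ)) ^ δ ≤ (y : ℝ) ^ δ :=
      Real.rpow_le_rpow (Real.rpow_nonneg hx0.le _) hxy hδ.le
    rw [← Real.rpow_mul hx0.le] at h1
    have e : (1 / 4 : ℝ) * δ = δ / 4 := by ring
    rwa [e] at h1
  have hzx : 2 * (y : ℝ) ^ δ ≤ x := by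
    have h1 : (y : ℝ) ^ δ ≤ (y : ℝ) ^ (1 / 4 : ℝ) :=
      Real.rpow_le_rpow_of_exponent_le (by linarith) hδ4
    have h2 : (y : ℝ) ^ (1 / 4 : ℝ) ≤ ((x : ℝ) ^ (3 / 2 : ℝ)) ^ (1 / 4 : ℝ) :=
      Real.rpow_le_rpow hy0.le hyx (by norm_num)
    rw [← Real.rpow_mul hx0.le] at h2
    have h3 : (x : ℝ) ^ ((3 / 2 : ℝ) * (1 / 4 : ℝ)) ≤ (x : ℝ) ^ (1 / 2 : ℝ) :=
      Real.rpow_le_rpow_of_exponent_le (by linarith) (by norm_num)
    rw [← Real.sqrt_eq_rpow] at h3
    have h4 : (4 : ℝ) ≤ √(x : ℝ) := by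
      rw [show (4 : ℝ) = √16 by
        rw [show (16 : ℝ) = 4 ^ 2 by norm_num, Real.sqrt_sq (by norm_num)]]
      exact Real.sqrt_le_sqrt h16
    have h5 := Real.mul_self_sqrt hx0.le
    nlinarith
  have hsieve := hS y (by exact_mod_cast hy2) SS (fun l hl _ =>
    ⟨fun s hs => mem_range.1 (mem_filter.1 hs).1, SS_card_le l hl⟩)
  -- the inclusion
  set A := (Icc 1 y).filter (fun p => Al x p) with hA
  set B := (Icc 1 y).filter (fun m : ℕ => ∀ l : ℕ, l.Prime → 7 ≤ l → (l : ℝ) ≤ (y : ℝ) ^ δ →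
    m % l ∉ SS l) with hB
  have hsub : A ⊆ B ∪ Icc 1 ⌊(y : ℝ) ^ δ⌋₊ := by
    intro p hp
    obtain ⟨hp1, hp2, hp3⟩ := mem_filter.1 hp
    rw [mem_union]
    rcases le_or_gt (p : ℝ) ((y : ℝ) ^ δ) with hle | hgt
    · right
      rw [mem_Icc]
      exact ⟨(mem_Icc.1 hp1).1, Nat.le_floor hle⟩
    · left
      refine mem_filter.2 ⟨hp1, fun l hl h7 hlz hmem => ?_⟩
      obtain ⟨-, h | ⟨-, h⟩⟩ := mem_filter.1 hmem
      · have h1 : l ∣ p := Nat.dvd_of_mod_eq_zero h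
        have h2 : l = p := (Nat.prime_dvd_prime_iff_eq hl hp2).1 h1
        rw [h2] at hlz
        linarith
      · have h1 : l ∣ p ^ 2 + p + 1 := by
          rw [dvd_iff] at h ⊢
          rwa [ZMod.natCast_mod] at h
        refine hp3 l hl ?_ h1
        have : (2 : ℝ) * l ≤ x := by linarith
        exact_mod_cast this
  have hcard : (A.card : ℝ) ≤ B.card + (y : ℝ) ^ (1 / 4 : ℝ) := by
    have h1 : A.card ≤ B.card + ⌊(y : ℝ) ^ δ⌋₊ := by
      refine (card_le_card hsub).trans ((card_union_le _ _).trans ?_)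
      rw [Nat.card_Icc]
      omega
    have h2 : ((⌊(y : ℝ) ^ δ⌋₊ : ℕ) : ℝ) ≤ (y : ℝ) ^ δ := Nat.floor_le (Real.rpow_nonneg hy0.le _)
    have h3 : (y : ℝ) ^ δ ≤ (y : ℝ) ^ (1 / 4 : ℝ) :=
      Real.rpow_le_rpow_of_exponent_le (by linarith) hδ4
    have h4 : (A.card : ℝ) ≤ B.card + ((⌊(y : ℝ) ^ δ⌋₊ : ℕ) : ℝ) := by exact_mod_cast h1
    linarith
  -- the exponential
  have hw : 0 < δ / 4 * Real.log x := mul_pos (by linarith) hlx
  have hlz : δ / 4 * Real.log x ≤ Real.log ((y : ℝ) ^ δ) := by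
    rw [Real.log_rpow hy0]
    have h1 : Real.log ((x : ℝ) ^ (1 / 4 : ℝ)) ≤ Real.log y :=
      Real.log_le_log (Real.rpow_pos_of_pos hx0 _) hxy
    rw [Real.log_rpow hx0] at h1
    nlinarith
  have hll : Real.log (δ / 4 * Real.log x) ≤ Real.log (Real.log ((y : ℝ) ^ δ)) :=
    Real.log_le_log hw hlz
  have hsum := sum_ge ⌊(y : ℝ) ^ δ⌋₊
  have hm1 := (abs_le.1 (hM _ hz)).1
  have hm3 := (h3 _ hz).1
  have hexp : Real.exp (-∑ l ∈ (Icc 7 ⌊(y : ℝ) ^ δ⌋₊).filter Nat.Prime, ((SS l).card : ℝ) / l) ≤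
      K * (Real.log x ^ 2)⁻¹ := by
    have h1 : -∑ l ∈ (Icc 7 ⌊(y : ℝ) ^ δ⌋₊).filter Nat.Prime, ((SS l).card : ℝ) / l ≤
        (C1 + 2 * C3 + 2) + -(2 * Real.log (δ / 4 * Real.log x)) := by linarith
    refine (Real.exp_le_exp.2 h1).trans (le_of_eq ?_)
    have e2 : Real.exp (2 * Real.log (δ / 4 * Real.log x)) = (δ / 4 * Real.log x) ^ 2 := by
      rw [two_mul, Real.exp_add, Real.exp_log hw, sq]
    have e3 : (δ / 4) ^ (-2 : ℤ) = ((δ / 4) ^ 2)⁻¹ := by
      rw [zpow_neg]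
      norm_cast
    rw [Real.exp_add, Real.exp_neg, e2, hK, e3, mul_pow, mul_inv]
    ring
  have hB' : (B.card : ℝ) ≤ C * y * (K * (Real.log x ^ 2)⁻¹) :=
    hsieve.trans (mul_le_mul_of_nonneg_left hexp (by positivity))
  have hsmall : (y : ℝ) ^ (1 / 4 : ℝ) ≤ y / Real.log x ^ 2 := by
    rw [le_div_iff₀ (by positivity)]
    have h1 : Real.log x ^ 2 ≤ (y : ℝ) ^ (3 / 4 : ℝ) := by
      refine hlog.trans ?_
      have h2 : ((x : ℝ) ^ (1 / 4 : ℝ)) ^ (3 / 4 : ℝ) ≤ (y : ℝ) ^ (3 / 4 : ℝ) :=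
        Real.rpow_le_rpow (Real.rpow_nonneg hx0.le _) hxy (by norm_num)
      rw [← Real.rpow_mul hx0.le] at h2
      have e : (1 / 4 : ℝ) * (3 / 4) = 3 / 16 := by norm_num
      rwa [e] at h2
    calc (y : ℝ) ^ (1 / 4 : ℝ) * Real.log x ^ 2 ≤ (y : ℝ) ^ (1 / 4 : ℝ) * (y : ℝ) ^ (3 / 4 : ℝ) :=
          mul_le_mul_of_nonneg_left h1 (Real.rpow_nonneg hy0.le _)
      _ = y := by
          rw [← Real.rpow_add hy0]
          norm_num
  have : C * y * (K * (Real.log x ^ 2)⁻¹) + y / Real.log x ^ 2 =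
      (C * K + 1) * (y / Real.log x ^ 2) := by
    field_simp
  linarith

end Pool.Agent.Helper85.LK
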